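import Pool.Agent.H2.Gap.Core
import Pool.Agent.H2.Gap.Ord

/-!
# Small gaps between zeros of the Riemann zeta function (MP_400eac_nt)

Under the Riemann hypothesis, for every `ε > 0` there are infinitely many `n` with
`γ_{n+1} - γ_n < (1/2 + ε) 2π / log n`, or with a multiple zero `1/2 + iγ_n`; in other words, if
zeros are counted with multiplicity, the constant `1/2 + ε` is admissible.
-/

set_option autoImplicit false

namespace Pool.Agent.Results.MP_400eac_nt.HalfGaps

open H2.Gap Complex Filter

theorem result (hRH : RiemannHypothesis) (ε : ℝ) (hε : 0 < ε) :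
    ∃ᶠ n : ℕ in atTop,
      ordinate (n + 1) - ordinate n < (1 / 2 + ε) * (2 * Real.pi / Real.log n) ∨
        deriv riemannZeta (1 / 2 + I * ordinate n) = 0 := by
  by_contra hcon
  rw [not_frequently] at hcon
  obtain ⟨c, T0, hc, hc1, hG⟩ := good_of_not ε hε (hcon.mono fun n hn => by
    push Not at hn
    exact hn)
  exact core hRH c T0 hc hc1 hG

end Pool.Agent.Results.MP_400eac_nt.HalfGaps
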